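import Pool.Agent.Q228.SAP.Weak
import Pool.Agent.TH303.LTwo

/-!
Square-lattice self-avoiding polygons: the joint laws of the width and the height, divided by their
means, at perimeters `2 n` and `2 n + 2` differ by at most `K (log n) / n^(1/2)` (in the bounded
Lipschitz metric), and convergence in distribution along sparse sequences implies convergence.
-/

open Filter Topology MeasureTheory

namespace Pool.Agent.Results.MP_c23e5f_co.ExtentLawsMerge

/-- a closed nearest-neighbour loop on `ℤ²` with `m` steps, rooted at the origin and oriented,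
that visits no vertex twice -/
def IsLoop (m : ℕ) (f : ZMod m → ℤ × ℤ) : Prop :=
  f 0 = 0 ∧ Function.Injective f ∧
    ∀ i : ZMod m, |(f (i + 1)).1 - (f i).1| + |(f (i + 1)).2 - (f i).2| = 1

/-- the width (horizontal extent) of a loop -/
noncomputable def width (m : ℕ) (f : ZMod m → ℤ × ℤ) : ℕ :=
  sSup {w : ℕ | ∃ i j, w = ((f i).1 - (f j).1).natAbs}

/-- the height (vertical extent) of a loop -/
noncomputable def height (m : ℕ) (f : ZMod m → ℤ × ℤ) : ℕ :=
  sSup {w : ℕ | ∃ i j, w = ((f i).2 - (f j).2).natAbs}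

/-- expectation under the uniform law on the (rooted, oriented) self-avoiding polygons of
perimeter `2 n` -/
noncomputable def E (n : ℕ) (F : (ZMod (2 * n) → ℤ × ℤ) → ℝ) : ℝ :=
  (∑ᶠ f ∈ {f : ZMod (2 * n) → ℤ × ℤ | IsLoop (2 * n) f}, F f) /
    ({f : ZMod (2 * n) → ℤ × ℤ | IsLoop (2 * n) f}.ncard : ℝ)

/-- the mean width `E[W_n]` -/
noncomputable def meanWidth (n : ℕ) : ℝ := E n (fun f => (width (2 * n) f : ℝ))

/-- the mean height `E[H_n]` -/
noncomputable def meanHeight (n : ℕ) : ℝ := E n (fun f => (height (2 * n) f : ℝ))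

/-- the normalised pair `(W_n / E[W_n], H_n / E[H_n])` -/
noncomputable def T (n : ℕ) (f : ZMod (2 * n) → ℤ × ℤ) : ℝ × ℝ :=
  ((width (2 * n) f : ℝ) / meanWidth n, (height (2 * n) f : ℝ) / meanHeight n)

/-- `E[g(W_n / E[W_n], H_n / E[H_n])]` -/
noncomputable def L (n : ℕ) (g : ℝ × ℝ → ℝ) : ℝ := E n (fun f => g (T n f))

lemma L_eq {n : ℕ} (hn : 2 ≤ n) (g : ℝ × ℝ → ℝ) : L n g =
    Pool.Agent.Q228.SAP.mG n (fun _ y z => g (y, z)) (Pool.Agent.H739K.MA n)
      (Pool.Agent.H739K.MW n) := by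
  have h : meanHeight n = Pool.Agent.H739K.MW n := Pool.Agent.Q228.SAP.height_mean hn
  unfold L T
  rw [h]
  rfl

lemma dist_le (y z y' z' : ℝ) : dist (y, z) (y', z') ≤ |y - y'| + |z - z'| := by
  rw [Prod.dist_eq]
  simp only [Real.dist_eq]
  have h2 := abs_nonneg (y - y')
  have h3 := abs_nonneg (z - z')
  exact max_le (by linarith) (by linarith)

lemma lip {g : ℝ × ℝ → ℝ} (h1 : ∀ x y, |g x - g y| ≤ dist x y) (h2 : ∀ x, |g x| ≤ 1) :
    Pool.Agent.Q228.SAP.Lip (fun _ y z => g (y, z)) where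
  lip := fun x y z x' y' z' => by
    have h3 := abs_nonneg (x - x')
    have h4 := (h1 (y, z) (y', z')).trans (dist_le y z y' z')
    linarith
  one := fun _ _ _ => h2 _

/-- **Theorem.** (1) There is `K` such that for all `n ≥ 2` and all `g : ℝ² → [-1, 1]` with
Lipschitz constant `1` (maximum metric), the expectations of `g(W_n / E[W_n], H_n / E[H_n])` at `n`
and at `n + 1` differ by at most `K (log n) / n^(1/2)`, where `W_n` and `H_n` are the width and the
height of the uniform self-avoiding polygon of perimeter `2 n`.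
(2) Let `s_k → ∞` be a sequence of integers with `(s_{k+1} - s_k) (log s_k) / s_k^(1/2) → 0` and
`ν` a Borel probability measure on `ℝ²`.  If the normalised pairs converge in distribution to `ν`
along `n = s_k`, then along all `n`. -/
theorem result : (∃ K : ℝ, ∀ n : ℕ, 2 ≤ n → ∀ g : ℝ × ℝ → ℝ,
      (∀ x y, |g x - g y| ≤ dist x y) → (∀ x, |g x| ≤ 1) →
      |L (n + 1) g - L n g| ≤ K * (Real.log n / Real.sqrt n)) ∧
    ∀ s : ℕ → ℕ, Tendsto s atTop atTop →
      Tendsto (fun k => ((s (k + 1) : ℝ) - s k) * (Real.log (s k) / Real.sqrt (s k)))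
        atTop (𝓝 0) →
      ∀ ν : Measure (ℝ × ℝ), IsProbabilityMeasure ν →
      (∀ g : ℝ × ℝ → ℝ, Continuous g → (∃ C, ∀ x, |g x| ≤ C) →
        Tendsto (fun k => L (s k) g) atTop (𝓝 (∫ x, g x ∂ν))) →
      ∀ g : ℝ × ℝ → ℝ, Continuous g → (∃ C, ∀ x, |g x| ≤ C) →
        Tendsto (fun n => L n g) atTop (𝓝 (∫ x, g x ∂ν)) := by
  obtain ⟨K, hK0, hK⟩ := Pool.Agent.Q228.SAP.joint
  refine ⟨⟨K, fun n hn g h1 h2 => ?_⟩, fun s hs hgap' ν hν h g hg hgb => ?_⟩
  · rw [← Pool.Agent.TH508.LT.rN_eq hn, L_eq hn, L_eq (show 2 ≤ n + 1 by omega)]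
    exact hK n hn _ (lip h1 h2)
  have hgap := Pool.Agent.TH303.LTwo.gap s hs hgap'
  exact Pool.Agent.Q228.SAP.weak_me T K hK0 (fun n hn g h1 h2 => by
    have h3 := hK n hn _ (lip h1 h2)
    rw [← L_eq hn, ← L_eq (show 2 ≤ n + 1 by omega)] at h3
    exact h3) s hs hgap ν h g hg hgb

end Pool.Agent.Results.MP_c23e5f_co.ExtentLawsMerge
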