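import Pool.Agent.Q228.SAP.WJoin

/-!
Self-avoiding polygons on the square lattice: with `p_{2j}(x)` the number of polygons of perimeter
`2j` and width at least `x`, the sum of `x p_{2j}(x) p_{2(n-j)}(x)` over `j` is at most
`K (log n)^2 p_{2n}`; the sum over `j` of `p_{2j} p_{2(n-j)}` times the mean of the smaller of two
independent widths is at most `K (log n)^3 p_{2n}`.
-/

namespace Pool.Agent.Results.MP_c23e5f_co.WidthJoin

/-- a closed nearest-neighbour loop on `ℤ²` with `m` steps, rooted at the origin and oriented,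
that visits no vertex twice -/
def IsLoop (m : ℕ) (f : ZMod m → ℤ × ℤ) : Prop :=
  f 0 = 0 ∧ Function.Injective f ∧
    ∀ i : ZMod m, |(f (i + 1)).1 - (f i).1| + |(f (i + 1)).2 - (f i).2| = 1

/-- the width (horizontal extent) of a loop -/
noncomputable def width (m : ℕ) (f : ZMod m → ℤ × ℤ) : ℕ :=
  sSup {w : ℕ | ∃ i j, w = ((f i).1 - (f j).1).natAbs}

/-- the number of self-avoiding polygons of perimeter `2n` on `ℤ²` up to translation: the number
of rooted oriented loops with `2n` steps, divided by `4n` (the choices of the starting point and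
of the orientation) -/
noncomputable def p (n : ℕ) : ℝ :=
  (Nat.card {f : ZMod (2 * n) → ℤ × ℤ // IsLoop (2 * n) f} : ℝ) / (4 * (n : ℝ))

/-- the number of self-avoiding polygons of perimeter `2n` and width at least `x` -/
noncomputable def pw (n x : ℕ) : ℝ :=
  (Nat.card {f : ZMod (2 * n) → ℤ × ℤ // IsLoop (2 * n) f ∧ x ≤ width (2 * n) f} : ℝ) /
    (4 * (n : ℝ))

/-- expectation under the uniform law on the (rooted, oriented) self-avoiding polygons of
perimeter `2 n` -/
noncomputable def E (n : ℕ) (F : (ZMod (2 * n) → ℤ × ℤ) → ℝ) : ℝ :=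
  (∑ᶠ f ∈ {f : ZMod (2 * n) → ℤ × ℤ | IsLoop (2 * n) f}, F f) /
    ({f : ZMod (2 * n) → ℤ × ℤ | IsLoop (2 * n) f}.ncard : ℝ)

/-- the mean `E[min(W_j, W'_k)]` of the smaller of the widths of two independent uniform polygons of
perimeters `2 j` and `2 k` -/
noncomputable def meanMin (j k : ℕ) : ℝ :=
  E j (fun f => E k (fun g => ((min (width (2 * j) f) (width (2 * k) g) : ℕ) : ℝ)))

lemma p_eq (n : ℕ) : p n = Pool.Agent.W870.Pg.Fp n * H981.mu ^ (2 * n) := by
  have h : p n = H981.PP n := rfl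
  have := H981.mu_pos
  rw [h]
  unfold Pool.Agent.W870.Pg.Fp
  field_simp

lemma pw_eq {n : ℕ} (hn : 2 ≤ n) (x : ℕ) :
    pw n x = Pool.Agent.Q228.SAP.wf x n * H981.mu ^ (2 * n) := by
  have h := Pool.Agent.Q228.SAP.card_wn hn x
  have := H981.mu_pos
  have e : pw n x = (Pool.Agent.Q228.SAP.wn n x : ℝ) / (4 * (n : ℝ)) := by
    unfold pw
    rw [← h]
    rfl
  rw [e]
  unfold Pool.Agent.Q228.SAP.wf
  field_simp

lemma meanMin_eq {j k : ℕ} (hj : 2 ≤ j) (hk : 2 ≤ k) : p j * p k * meanMin j k =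
    (∑ f ∈ Pool.Agent.W870.Pg.LF (2 * j), ∑ g ∈ Pool.Agent.W870.Pg.LF (2 * k),
      ((min (width (2 * j) f) (width (2 * k) g) : ℕ) : ℝ)) / (4 * j) / (4 * (k : ℝ)) := by
  have h1 := Pool.Agent.Q228.SAP.me_mul_PP hj
    (fun f => E k (fun g => ((min (width (2 * j) f) (width (2 * k) g) : ℕ) : ℝ)))
  have h1' : meanMin j k * p j = (∑ f ∈ Pool.Agent.W870.Pg.LF (2 * j),
      E k (fun g => ((min (width (2 * j) f) (width (2 * k) g) : ℕ) : ℝ))) / (4 * j) := h1
  have h2 : ∀ f : ZMod (2 * j) → ℤ × ℤ,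
      E k (fun g => ((min (width (2 * j) f) (width (2 * k) g) : ℕ) : ℝ)) * p k =
      (∑ g ∈ Pool.Agent.W870.Pg.LF (2 * k),
        ((min (width (2 * j) f) (width (2 * k) g) : ℕ) : ℝ)) / (4 * k) := fun f =>
    Pool.Agent.Q228.SAP.me_mul_PP hk
      (fun g => ((min (width (2 * j) f) (width (2 * k) g) : ℕ) : ℝ))
  calc p j * p k * meanMin j k = (meanMin j k * p j) * p k := by ring
    _ = (∑ f ∈ Pool.Agent.W870.Pg.LF (2 * j),
      E k (fun g => ((min (width (2 * j) f) (width (2 * k) g) : ℕ) : ℝ)) * p k) / (4 * j) := by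
        rw [h1', ← Finset.sum_mul]
        ring
    _ = _ := by
        rw [Finset.sum_congr rfl fun f _ => h2 f, ← Finset.sum_div, div_right_comm]

/-- **Theorem.** Let `p_{2n}` be the number of self-avoiding polygons of perimeter `2n` on `ℤ²`, up
to translation, `p_{2n}(x)` the number of those with width at least `x` and `W_n` the width of the
uniform one. There is a constant `K` such that for all `n ≥ 2`:
(1) `x ∑_{2 ≤ j ≤ n - 2} p_{2j}(x) p_{2(n-j)}(x) ≤ K (log n)^2 p_{2n}` for all `x`;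
(2) `∑_{2 ≤ j ≤ n - 2} p_{2j} p_{2(n-j)} E[min(W_j, W'_{n-j})] ≤ K (log n)^3 p_{2n}`, where `W_j` and
`W'_{n-j}` are independent. -/
theorem result : ∃ K : ℝ, ∀ n : ℕ, 2 ≤ n →
    (∀ x : ℕ, x * ∑ j ∈ Finset.Icc 2 (n - 2), pw j x * pw (n - j) x ≤
      K * Real.log n ^ 2 * p n) ∧
    ∑ j ∈ Finset.Icc 2 (n - 2), p j * p (n - j) * meanMin j (n - j) ≤
      K * Real.log n ^ 3 * p n := by
  obtain ⟨K1, hK1, h1⟩ := Pool.Agent.Q228.SAP.wide_join
  obtain ⟨K2, hK2, h2⟩ := Pool.Agent.Q228.SAP.min_join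
  have hmu := H981.mu_pos
  refine ⟨K1 + K2, fun n hn => ⟨fun x => ?_, ?_⟩⟩
  · have h := h1 x n hn
    have hF := (Pool.Agent.W870.Pg.Fp_pos hn).le
    have e : ∑ j ∈ Finset.Icc 2 (n - 2), pw j x * pw (n - j) x =
        (∑ j ∈ Finset.Icc 2 (n - 2),
          Pool.Agent.Q228.SAP.wf x j * Pool.Agent.Q228.SAP.wf x (n - j)) *
          H981.mu ^ (2 * n) := by
      rw [Finset.sum_mul]
      refine Finset.sum_congr rfl fun j hj => ?_
      rw [Finset.mem_Icc] at hj
      have e2 : H981.mu ^ (2 * n) = H981.mu ^ (2 * j) * H981.mu ^ (2 * (n - j)) := by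
        rw [← pow_add]; congr 1; omega
      rw [pw_eq hj.1, pw_eq (show 2 ≤ n - j by omega), e2]
      ring
    rw [e, p_eq n, ← mul_assoc, ← mul_assoc]
    apply mul_le_mul_of_nonneg_right _ (pow_pos hmu _).le
    refine h.trans ?_
    have : 0 ≤ K2 * Real.log n ^ 2 * Pool.Agent.W870.Pg.Fp n := by positivity
    linarith
  · have h := h2 n hn
    have hF := (Pool.Agent.W870.Pg.Fp_pos hn).le
    have e : ∑ j ∈ Finset.Icc 2 (n - 2), p j * p (n - j) * meanMin j (n - j) =
        ∑ j ∈ Finset.Icc 2 (n - 2), (∑ f ∈ Pool.Agent.W870.Pg.LF (2 * j),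
          ∑ g ∈ Pool.Agent.W870.Pg.LF (2 * (n - j)),
          ((min (width (2 * j) f) (width (2 * (n - j)) g) : ℕ) : ℝ)) / (4 * j) /
            (4 * ((n - j : ℕ) : ℝ)) := by
      refine Finset.sum_congr rfl fun j hj => ?_
      rw [Finset.mem_Icc] at hj
      exact meanMin_eq hj.1 (by omega)
    rw [e, p_eq n]
    refine h.trans ?_
    apply mul_le_mul_of_nonneg_right _ (mul_nonneg hF (pow_pos hmu _).le)
    have hl : 0 ≤ Real.log (n : ℝ) := Real.log_natCast_nonneg n
    have : 0 ≤ K1 * Real.log n ^ 3 := by positivity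
    linarith

end Pool.Agent.Results.MP_c23e5f_co.WidthJoin
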