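import Pool.Agent.Q228.SAP.JMom
import Pool.Agent.TH303.LTwo

/-!
Square-lattice self-avoiding polygons: for every `k` the `k`-th moments of the width (plain and
normalised by the mean width) at perimeters `2 n` and `2 n + 2` differ by a factor
`1 + O((log n) / n^(1/2))`; two-sided bounds by powers of `n`, and convergence of the normalised
moments, need only be checked along sparse sequences.
-/

open Filter Topology

namespace Pool.Agent.Results.MP_c23e5f_co.WidthMoments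

/-- a closed nearest-neighbour loop on `ℤ²` with `m` steps, rooted at the origin and oriented,
that visits no vertex twice -/
def IsLoop (m : ℕ) (f : ZMod m → ℤ × ℤ) : Prop :=
  f 0 = 0 ∧ Function.Injective f ∧
    ∀ i : ZMod m, |(f (i + 1)).1 - (f i).1| + |(f (i + 1)).2 - (f i).2| = 1

/-- the width (horizontal extent) of a loop -/
noncomputable def width (m : ℕ) (f : ZMod m → ℤ × ℤ) : ℕ :=
  sSup {w : ℕ | ∃ i j, w = ((f i).1 - (f j).1).natAbs}

/-- expectation under the uniform law on the (rooted, oriented) self-avoiding polygons of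
perimeter `2 n` -/
noncomputable def E (n : ℕ) (F : (ZMod (2 * n) → ℤ × ℤ) → ℝ) : ℝ :=
  (∑ᶠ f ∈ {f : ZMod (2 * n) → ℤ × ℤ | IsLoop (2 * n) f}, F f) /
    ({f : ZMod (2 * n) → ℤ × ℤ | IsLoop (2 * n) f}.ncard : ℝ)

/-- the mean width `E[W_n]` -/
noncomputable def meanWidth (n : ℕ) : ℝ := E n (fun f => (width (2 * n) f : ℝ))

/-- the `k`-th moment `E[W_n^k]` of the width -/
noncomputable def moment (k n : ℕ) : ℝ := E n (fun f => (width (2 * n) f : ℝ) ^ k)

/-- the `k`-th moment `E[(W_n / E[W_n])^k]` of the normalised width -/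
noncomputable def nmoment (k n : ℕ) : ℝ := E n (fun f => ((width (2 * n) f : ℝ) / meanWidth n) ^ k)

lemma moment_eq (k n : ℕ) : moment k n = Pool.Agent.Q228.SAP.JM 0 k n := by
  unfold moment Pool.Agent.Q228.SAP.JM
  simp only [pow_zero, one_mul]
  rfl

lemma nmoment_eq (k : ℕ) {n : ℕ} (hn : 2 ≤ n) : nmoment k n = Pool.Agent.Q228.SAP.NJ 0 k n := by
  have h := Pool.Agent.H739K.F4x.me_mul Pool.Agent.H739K.CONV_proof hn
    (fun f => (width (2 * n) f : ℝ) ^ k) (1 / meanWidth n ^ k)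
  have e : nmoment k n = Pool.Agent.H739K.me n (fun f =>
      (width (2 * n) f : ℝ) ^ k * (1 / meanWidth n ^ k)) := by
    unfold nmoment
    have : (fun f => ((width (2 * n) f : ℝ) / meanWidth n) ^ k) = (fun f =>
        (width (2 * n) f : ℝ) ^ k * (1 / meanWidth n ^ k)) := by
      funext f
      rw [div_pow, mul_one_div]
    rw [this]
    rfl
  have e2 : Pool.Agent.H739K.me n (fun f => (width (2 * n) f : ℝ) ^ k) = moment k n := rfl
  rw [e, h, e2, moment_eq, mul_one_div]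
  unfold Pool.Agent.Q228.SAP.NJ
  rw [pow_zero, one_mul]
  rfl

/-- **Theorem.** (1) For every `k` there is `K` such that for all `n ≥ 2`
`|E[W_{n+1}^k] / E[W_n^k] - 1| ≤ K (log n) / n^(1/2)`, and the same holds for the moments of the
normalised width `W_n / E[W_n]`. Let `s_j → ∞` be a sequence of integers with
`(s_{j+1} - s_j) (log s_j) / s_j^(1/2) → 0`. (2) If `a n^θ ≤ E[W_n^k] ≤ b n^θ` for `n = s_j` and all
large `j`, where `θ ≥ 0` and `a > 0`, then `2^(-θ-1) a n^θ ≤ E[W_n^k] ≤ 2 b n^θ` for all large `n`.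
(3) If `m > 0` and `E[(W_n/E[W_n])^k] → m` along `n = s_j`, then along all `n`. -/
theorem result : (∀ k : ℕ, ∃ K : ℝ, ∀ n : ℕ, 2 ≤ n →
      |moment k (n + 1) / moment k n - 1| ≤ K * (Real.log n / Real.sqrt n) ∧
      |nmoment k (n + 1) / nmoment k n - 1| ≤ K * (Real.log n / Real.sqrt n)) ∧
    ∀ (k : ℕ) (s : ℕ → ℕ), Tendsto s atTop atTop →
      Tendsto (fun j => ((s (j + 1) : ℝ) - s j) * (Real.log (s j) / Real.sqrt (s j)))
        atTop (𝓝 0) →
      (∀ θ a b : ℝ, 0 ≤ θ → 0 < a →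
        (∀ᶠ j in atTop, a * (s j : ℝ) ^ θ ≤ moment k (s j) ∧
          moment k (s j) ≤ b * (s j : ℝ) ^ θ) →
        ∀ᶠ n : ℕ in atTop, a / 2 ^ (θ + 1) * (n : ℝ) ^ θ ≤ moment k n ∧
          moment k n ≤ 2 * b * (n : ℝ) ^ θ) ∧
      ∀ m : ℝ, 0 < m → Tendsto (fun j => nmoment k (s j)) atTop (𝓝 m) →
        Tendsto (fun n => nmoment k n) atTop (𝓝 m) := by
  have hmom : ∀ k n : ℕ, moment k n = Pool.Agent.Q228.SAP.JM 0 k n := moment_eq
  refine ⟨fun k => ?_, fun k s hs hgap' => ?_⟩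
  · obtain ⟨K1, h1⟩ := Pool.Agent.Q228.SAP.JM_ratio 0 k
    obtain ⟨K2, h2⟩ := Pool.Agent.Q228.SAP.NJ_ratio 0 k
    refine ⟨max K1 K2, fun n hn => ?_⟩
    have hr : (0 : ℝ) ≤ Real.log n / Real.sqrt n :=
      div_nonneg (Real.log_natCast_nonneg n) (Real.sqrt_nonneg _)
    have g1 := h1 n hn
    have g2 := h2 n hn
    rw [Pool.Agent.TH508.LT.rN_eq hn] at g1 g2
    rw [nmoment_eq k hn, nmoment_eq k (show 2 ≤ n + 1 by omega), hmom, hmom]
    exact ⟨g1.trans (mul_le_mul_of_nonneg_right (le_max_left _ _) hr),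
      g2.trans (mul_le_mul_of_nonneg_right (le_max_right _ _) hr)⟩
  have hgap := Pool.Agent.TH303.LTwo.gap s hs hgap'
  refine ⟨fun θ a b hθ ha hab => ?_, fun m hm h => ?_⟩
  · obtain ⟨K1, h1⟩ := Pool.Agent.Q228.SAP.JM_ratio 0 k
    exact Pool.Agent.W387.Q.bounds_gen (fun n => moment k n) K1
      (fun n hn => by rw [hmom]; exact Pool.Agent.Q228.SAP.JM_pos hn 0 k)
      (fun n hn => by rw [hmom, hmom]; exact h1 n hn) s hs hgap a b θ ha hθ hab
  obtain ⟨K2, h2⟩ := Pool.Agent.Q228.SAP.NJ_ratio 0 k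
  exact Pool.Agent.W387.Q.mul_gen (fun n => nmoment k n) K2
    (fun n hn => by rw [nmoment_eq k hn]; exact Pool.Agent.Q228.SAP.NJ_pos hn 0 k)
    (fun n hn => by
      rw [nmoment_eq k hn, nmoment_eq k (show 2 ≤ n + 1 by omega)]
      exact h2 n hn) s hs hgap m hm h

end Pool.Agent.Results.MP_c23e5f_co.WidthMoments
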