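import Pool.Agent.Q228.SAP.Frac

/-!
Self-avoiding polygons on the square lattice: upper bounds for the moments of the width `W_n` at
perimeter `2 n` times the number `p_{2n}` of polygons: `E[W_n^s] p_{2n} ≤ K n^(s/2 - 1) μ^(2n)` for
`0 < s < 1`, `E[W_n] p_{2n} ≤ K (log n) n^(-1/2) μ^(2n)`, and `E[W_n^k] p_{2n} ≤ K n^(k-3/2) μ^(2n)`
for the integers `k ≥ 2`.
-/

open Filter Topology

namespace Pool.Agent.Results.MP_c23e5f_co.WidthTimesCount

/-- the number of `n`-step self-avoiding walks on `ℤ²` started at the origin -/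
noncomputable def c (n : ℕ) : ℕ :=
  Nat.card {f : Fin (n + 1) → ℤ × ℤ // f 0 = 0 ∧ Function.Injective f ∧
    ∀ i : Fin n, |(f i.succ).1 - (f i.castSucc).1| + |(f i.succ).2 - (f i.castSucc).2| = 1}

/-- a closed nearest-neighbour loop on `ℤ²` with `m` steps, rooted at the origin and oriented,
that visits no vertex twice -/
def IsLoop (m : ℕ) (f : ZMod m → ℤ × ℤ) : Prop :=
  f 0 = 0 ∧ Function.Injective f ∧
    ∀ i : ZMod m, |(f (i + 1)).1 - (f i).1| + |(f (i + 1)).2 - (f i).2| = 1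

/-- the width (horizontal extent) of a loop -/
noncomputable def width (m : ℕ) (f : ZMod m → ℤ × ℤ) : ℕ :=
  sSup {w : ℕ | ∃ i j, w = ((f i).1 - (f j).1).natAbs}

/-- the number of self-avoiding polygons of perimeter `2n` on `ℤ²` up to translation: the number
of rooted oriented loops with `2n` steps, divided by `4n` (the choices of the starting point and
of the orientation) -/
noncomputable def p (n : ℕ) : ℝ :=
  (Nat.card {f : ZMod (2 * n) → ℤ × ℤ // IsLoop (2 * n) f} : ℝ) / (4 * (n : ℝ))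

/-- expectation under the uniform law on the (rooted, oriented) self-avoiding polygons of
perimeter `2 n` -/
noncomputable def E (n : ℕ) (F : (ZMod (2 * n) → ℤ × ℤ) → ℝ) : ℝ :=
  (∑ᶠ f ∈ {f : ZMod (2 * n) → ℤ × ℤ | IsLoop (2 * n) f}, F f) /
    ({f : ZMod (2 * n) → ℤ × ℤ | IsLoop (2 * n) f}.ncard : ℝ)

lemma c_eq (n : ℕ) : (c n : ℝ) = H981.cr' n := by
  rw [H981.cr'_eq]
  unfold c H981.C H981.IsSAW
  congr 1
  apply Nat.card_congr
  apply Equiv.subtypeEquivRight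
  intro f
  constructor
  · rintro ⟨h0, h1, h2⟩
    exact ⟨h0, h2, h1⟩
  · rintro ⟨h0, h2, h1⟩
    exact ⟨h0, h1, h2⟩

/-- **Theorem.** Let `μ` be the connective constant of `ℤ²`, `p_{2n}` the number of self-avoiding
polygons of perimeter `2n` up to translation and `W_n` the width of the uniform one.
(1) There is `K` with `E[W_n] p_{2n} ≤ K (log n) n^(-1/2) μ^(2n)` for all `n ≥ 2`.
(2) For every real `0 < s < 1` there is `K` with `E[W_n^s] p_{2n} ≤ K n^(s/2 - 1) μ^(2n)` for all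
`n ≥ 2`.
(3) For every natural `k` there is `K` with `E[W_n^(k+2)] p_{2n} ≤ K n^k √n μ^(2n)` and
`∑_{2 ≤ j ≤ n} E[W_j^(k+2)] p_{2j} μ^(-2j) ≤ K n^(k+1)` for all `n ≥ 2`. -/
theorem result : ∃ μ : ℝ, 0 < μ ∧
    Tendsto (fun n : ℕ => (c n : ℝ) ^ ((1:ℝ) / (n : ℝ))) atTop (𝓝 μ) ∧
    (∃ K : ℝ, ∀ n : ℕ, 2 ≤ n →
      E n (fun f => (width (2 * n) f : ℝ)) * p n ≤ K * (Real.log n / Real.sqrt n) * μ ^ (2 * n)) ∧
    (∀ s : ℝ, 0 < s → s < 1 → ∃ K : ℝ, ∀ n : ℕ, 2 ≤ n →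
      E n (fun f => (width (2 * n) f : ℝ) ^ s) * p n ≤
        K * (n : ℝ) ^ (s / 2 - 1) * μ ^ (2 * n)) ∧
    ∀ k : ℕ, ∃ K : ℝ, ∀ n : ℕ, 2 ≤ n →
      E n (fun f => (width (2 * n) f : ℝ) ^ (k + 2)) * p n ≤
        K * ((n : ℝ) ^ k * Real.sqrt n) * μ ^ (2 * n) ∧
      ∑ j ∈ Finset.Icc 2 n, E j (fun f => (width (2 * j) f : ℝ) ^ (k + 2)) * p j / μ ^ (2 * j) ≤
        K * (n : ℝ) ^ (k + 1) := by
  refine ⟨H981.mu, H981.mu_pos, ?_, ?_, fun s hs0 hs1 => ?_, fun k => ?_⟩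
  · simp only [c_eq]
    exact H981.tendsto_root
  · obtain ⟨K, _, h⟩ := Pool.Agent.Q228.SAP.width_mean
    exact ⟨K, h⟩
  · obtain ⟨K, _, h⟩ := Pool.Agent.Q228.SAP.width_frac hs0 hs1
    exact ⟨K, h⟩
  · obtain ⟨K1, hK1, h1⟩ := Pool.Agent.Q228.SAP.width_moment k
    obtain ⟨K2, hK2, h2⟩ := Pool.Agent.Q228.SAP.width_sum k
    have hmu := H981.mu_pos
    refine ⟨K1 + K2, fun n hn => ⟨(h1 n hn).trans ?_, (h2 n hn).trans ?_⟩⟩
    · apply mul_le_mul_of_nonneg_right _ (pow_pos hmu _).le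
      apply mul_le_mul_of_nonneg_right _ (by positivity)
      linarith
    · apply mul_le_mul_of_nonneg_right _ (by positivity)
      linarith

end Pool.Agent.Results.MP_c23e5f_co.WidthTimesCount
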